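import Mathlib

set_option autoImplicit false

namespace Pool.Agent.MPdc6d97

/-- number of intervals of `l` containing the point `x` -/
def cnt (l : List (ℕ × ℕ)) (x : ℕ) : ℕ := l.countP (fun p => decide (p.1 ≤ x ∧ x ≤ p.1 + p.2))

lemma cnt_nil (x : ℕ) : cnt [] x = 0 := rfl

lemma cnt_cons (J : ℕ × ℕ) (l : List (ℕ × ℕ)) (x : ℕ) :
    cnt (J :: l) x = (if J.1 ≤ x ∧ x ≤ J.1 + J.2 then 1 else 0) + cnt l x := by
  unfold cnt
  rw [List.countP_cons]
  simp only [decide_eq_true_eq]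
  omega

lemma cnt_append (l m : List (ℕ × ℕ)) (x : ℕ) : cnt (l ++ m) x = cnt l x + cnt m x := by
  unfold cnt
  rw [List.countP_append]

lemma cnt_zero_of_lt {m : List (ℕ × ℕ)} {x : ℕ} (h : ∀ p ∈ m, x < p.1) : cnt m x = 0 := by
  unfold cnt
  rw [List.countP_eq_zero]
  intro p hp
  have := h p hp
  simp only [decide_eq_true_eq]
  omega

lemma cnt_zero_of_gt {m : List (ℕ × ℕ)} {x : ℕ} (h : ∀ p ∈ m, p.1 + p.2 < x) : cnt m x = 0 := by
  unfold cnt
  rw [List.countP_eq_zero]
  intro p hp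
  have := h p hp
  simp only [decide_eq_true_eq]
  omega

def Good (L : ℕ) (l : List (ℕ × ℕ)) : Prop := ∀ x, cnt l x ≤ L

/-- `a` is a proper online colouring (of reversed request sequences) of load at most `L`. -/
def Proper {C : Type} (L : ℕ) (a : List (ℕ × ℕ) → C) : Prop :=
  ∀ J t I t2, Good L (J :: t) → (I :: t2) <:+ t → I.1 ≤ J.1 + J.2 → J.1 ≤ I.1 + I.2 →
    a (I :: t2) ≠ a (J :: t)

section force
variable {K L : ℕ} (a : List (ℕ × ℕ) → Fin K)

def Blk (l : List (ℕ × ℕ)) (x y : ℕ) (s : Fin K) : Prop :=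
  ∃ I t, (I :: t) <:+ l ∧ a (I :: t) = s ∧ x ≤ I.1 ∧ I.1 + I.2 < y

variable {a}

lemma Blk.mono {l l' : List (ℕ × ℕ)} {x y x' y' : ℕ} {s : Fin K} (h : Blk a l x y s)
    (hl : l <:+ l') (hx : x' ≤ x) (hy : y ≤ y') : Blk a l' x' y' s := by
  obtain ⟨I, t, h1, h2, h3, h4⟩ := h
  exact ⟨I, t, h1.trans hl, h2, by omega, by omega⟩

lemma Blk.ne (hp : Proper L a) {l : List (ℕ × ℕ)} {x y : ℕ} {s : Fin K} (h : Blk a l x y s)
    (J : ℕ × ℕ) (hg : Good L (J :: l)) (h1 : J.1 ≤ x) (h2 : y ≤ J.1 + J.2 + 1) :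
    a (J :: l) ≠ s := by
  obtain ⟨I, t, h3, h4, h5, h6⟩ := h
  rw [← h4]
  exact (hp J l I t hg h3 (by omega) (by omega)).symm

variable (a)

def Forces (L k : ℕ) : Prop := ∀ (l : List (ℕ × ℕ)) (R : ℕ), (∀ p ∈ l, p.1 + p.2 < R) → Good L l →
  ∃ (m : List (ℕ × ℕ)) (R' : ℕ) (S : Finset (Fin K)), R < R' ∧
    (∀ p ∈ m, R ≤ p.1 ∧ p.1 + p.2 < R') ∧ (∀ x, cnt m x ≤ k) ∧ S.card = 3 * k - 2 ∧
    ∀ s ∈ S, Blk a (m ++ l) R R' s

variable {a}

lemma forces_one : Forces a L 1 := by
  intro l R _ _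
  refine ⟨[(R, 0)], R + 1, {a ((R, 0) :: l)}, by omega, ?_, ?_, by simp, ?_⟩
  · intro p hp
    rw [List.mem_singleton] at hp
    subst hp
    simp
  · intro x
    rw [cnt_cons, cnt_nil]
    split_ifs <;> omega
  · intro s hs
    rw [Finset.mem_singleton] at hs
    subst hs
    exact ⟨(R, 0), l, List.suffix_refl _, rfl, le_rfl, by simp⟩

lemma good_append {T l0 : List (ℕ × ℕ)} {R0 k : ℕ} (hk : k ≤ L) (hT : ∀ p ∈ T, R0 ≤ p.1)
    (hc : ∀ x, cnt T x ≤ k) (hb : ∀ p ∈ l0, p.1 + p.2 < R0) (hg : Good L l0) :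
    Good L (T ++ l0) := by
  intro x
  rw [cnt_append]
  rcases Nat.lt_or_ge x R0 with h | h
  · have : cnt T x = 0 := cnt_zero_of_lt (fun p hp => by have := hT p hp; omega)
    have := hg x
    omega
  · have : cnt l0 x = 0 := cnt_zero_of_gt (fun p hp => by have := hb p hp; omega)
    have := hc x
    omega

lemma forces_succ {k : ℕ} (hk1 : 1 ≤ k) (hkL : k + 1 ≤ L) (hp : Proper L a) (hF : Forces a L k) :
    Forces a L (k + 1) := by
  classical
  intro l0 R0 hb0 hg0
  unfold Forces at hF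
  choose! m R' S hmR using hF
  let st : ℕ → List (ℕ × ℕ) × ℕ := fun n =>
    Nat.rec (l0, R0) (fun _ s => (m s.1 s.2 ++ s.1, R' s.1 s.2 + 1)) n
  set lst : ℕ → List (ℕ × ℕ) := fun n => (st n).1 with hlst
  set r : ℕ → ℕ := fun n => (st n).2 with hr
  set g : ℕ → ℕ := fun n => R' (lst n) (r n) with hgdef
  have hl0 : lst 0 = l0 := rfl
  have hr0 : r 0 = R0 := rfl
  have hlsucc : ∀ n, lst (n + 1) = m (lst n) (r n) ++ lst n := fun n => rfl
  have hrsucc : ∀ n, r (n + 1) = g n + 1 := fun n => rfl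
  -- the invariant
  have hInv : ∀ n, ∃ T, lst n = T ++ l0 ∧ (∀ p ∈ T, R0 ≤ p.1 ∧ p.1 + p.2 < r n) ∧
      (∀ x, cnt T x ≤ k) ∧ (∀ i < n, cnt T (g i) = 0 ∧ g i < r n) ∧ R0 ≤ r n := by
    intro n
    induction n with
    | zero =>
      refine ⟨[], by simp [hl0], by simp, fun x => by rw [cnt_nil]; omega, by simp, by rw [hr0]⟩
    | succ n ih =>
      obtain ⟨T, hT, h1, h2, h3, h4⟩ := ih
      have hbd : ∀ p ∈ lst n, p.1 + p.2 < r n := by
        intro p hp
        rw [hT, List.mem_append] at hp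
        rcases hp with hp | hp
        · exact (h1 p hp).2
        · have := hb0 p hp; omega
      have hgd : Good L (lst n) := by
        rw [hT]
        exact good_append (by omega) (fun p hp => (h1 p hp).1) h2 hb0 hg0
      obtain ⟨q1, q2, q3, q4, q5⟩ := hmR (lst n) (r n) hbd hgd
      have q1' : r n < g n := q1
      refine ⟨m (lst n) (r n) ++ T, by rw [hlsucc, hT, List.append_assoc], ?_, ?_, ?_, ?_⟩
      · intro p hp
        rw [List.mem_append] at hp
        rw [hrsucc]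
        rcases hp with hp | hp
        · have := q2 p hp
          have e : R' (lst n) (r n) = g n := rfl
          omega
        · have := h1 p hp; omega
      · intro x
        rw [cnt_append]
        rcases Nat.lt_or_ge x (r n) with h | h
        · have : cnt (m (lst n) (r n)) x = 0 :=
            cnt_zero_of_lt (fun p hp => by have := (q2 p hp).1; omega)
          have := h2 x
          omega
        · have : cnt T x = 0 := cnt_zero_of_gt (fun p hp => by have := (h1 p hp).2; omega)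
          have := q3 x
          omega
      · intro i hi
        rw [cnt_append, hrsucc]
        rcases Nat.lt_or_ge i n with h | h
        · have h5 := h3 i h
          have : cnt (m (lst n) (r n)) (g i) = 0 :=
            cnt_zero_of_lt (fun p hp => by have := (q2 p hp).1; omega)
          omega
        · have : i = n := by omega
          subst this
          have e1 : cnt (m (lst i) (r i)) (g i) = 0 :=
            cnt_zero_of_gt (fun p hp => (q2 p hp).2)
          have e2 : cnt T (g i) = 0 := cnt_zero_of_gt (fun p hp => by have := (h1 p hp).2; omega)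
          omega
      · rw [hrsucc]; omega
  have hStep : ∀ n, r n < g n ∧ (S (lst n) (r n)).card = 3 * k - 2 ∧
      ∀ s ∈ S (lst n) (r n), Blk a (lst (n + 1)) (r n) (g n) s := by
    intro n
    obtain ⟨T, hT, h1, h2, h3, h4⟩ := hInv n
    have hbd : ∀ p ∈ lst n, p.1 + p.2 < r n := by
      intro p hp
      rw [hT, List.mem_append] at hp
      rcases hp with hp | hp
      · exact (h1 p hp).2
      · have := hb0 p hp; omega
    have hgd : Good L (lst n) := by
      rw [hT]
      exact good_append (by omega) (fun p hp => (h1 p hp).1) h2 hb0 hg0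
    obtain ⟨q1, q2, q3, q4, q5⟩ := hmR (lst n) (r n) hbd hgd
    exact ⟨q1, q4, q5⟩
  have hsuf : ∀ i j, i ≤ j → lst i <:+ lst j := by
    intro i j hij
    induction j, hij using Nat.le_induction with
    | base => exact List.suffix_refl _
    | succ j _ ih => rw [hlsucc]; exact ih.trans (List.suffix_append _ _)
  have hrmono : ∀ i j, i < j → g i < r j := fun i j hij => by
    obtain ⟨T, _, _, _, h3, _⟩ := hInv j
    exact (h3 i hij).2
  -- pigeonhole: four blocks with the same colour set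
  obtain ⟨S0, hS0⟩ := Finite.exists_infinite_fiber (fun i : ℕ => S (lst i) (r i))
  have hinf : ((fun i : ℕ => S (lst i) (r i)) ⁻¹' {S0}).Infinite := Set.infinite_coe_iff.1 hS0
  obtain ⟨i1, hi1, -⟩ := hinf.exists_gt 0
  obtain ⟨i2, hi2, h12⟩ := hinf.exists_gt i1
  obtain ⟨i3, hi3, h23⟩ := hinf.exists_gt i2
  obtain ⟨i4, hi4, h34⟩ := hinf.exists_gt i3
  simp only [Set.mem_preimage, Set.mem_singleton_iff] at hi1 hi2 hi3 hi4
  obtain ⟨T, hT, hT1, hT2, hT3, hT4⟩ := hInv (i4 + 1)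
  obtain ⟨s1a, s1b, s1c⟩ := hStep i1
  obtain ⟨s2a, s2b, s2c⟩ := hStep i2
  obtain ⟨s3a, s3b, s3c⟩ := hStep i3
  obtain ⟨s4a, s4b, s4c⟩ := hStep i4
  rw [hi1] at s1b s1c
  rw [hi2] at s2c
  rw [hi3] at s3c
  rw [hi4] at s4c
  have o12 : g i1 < r i2 := hrmono _ _ h12
  have o23 : g i2 < r i3 := hrmono _ _ h23
  have o34 : g i3 < r i4 := hrmono _ _ h34
  have o45 : g i4 + 1 = r (i4 + 1) := (hrsucc i4).symm
  have o01 : R0 ≤ r i1 := by
    obtain ⟨_, _, _, _, _, h5⟩ := hInv i1
    exact h5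
  have z1 := (hT3 i1 (by omega)).1
  have z2 := (hT3 i2 (by omega)).1
  have z3 := (hT3 i3 (by omega)).1
  have z4 := (hT3 i4 (by omega)).1
  -- blocks in the final list
  have B1 : ∀ s ∈ S0, Blk a (lst (i4 + 1)) (r i1) (g i1) s := fun s hs =>
    (s1c s hs).mono (hsuf (i1 + 1) (i4 + 1) (by omega)) le_rfl le_rfl
  have B2 : ∀ s ∈ S0, Blk a (lst (i4 + 1)) (r i2) (g i2) s := fun s hs =>
    (s2c s hs).mono (hsuf (i2 + 1) (i4 + 1) (by omega)) le_rfl le_rfl
  have B3 : ∀ s ∈ S0, Blk a (lst (i4 + 1)) (r i3) (g i3) s := fun s hs =>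
    (s3c s hs).mono (hsuf (i3 + 1) (i4 + 1) (by omega)) le_rfl le_rfl
  have B4 : ∀ s ∈ S0, Blk a (lst (i4 + 1)) (r i4) (g i4) s := fun s hs =>
    (s4c s hs).mono (hsuf (i4 + 1) (i4 + 1) (by omega)) le_rfl le_rfl
  set l := lst (i4 + 1) with hl
  generalize hx1 : r i1 = r1 at *
  generalize hx2 : r i2 = r2 at *
  generalize hx3 : r i3 = r3 at *
  generalize hx4 : r i4 = r4 at *
  generalize hx5 : r (i4 + 1) = r5 at *
  generalize hy1 : g i1 = g1 at *
  generalize hy2 : g i2 = g2 at *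
  generalize hy3 : g i3 = g3 at *
  generalize hy4 : g i4 = g4 at *
  let J1 : ℕ × ℕ := (r1, g1 - r1)
  let J4 : ℕ × ℕ := (g3, g4 - g3)
  let J2 : ℕ × ℕ := (g1, g2 - g1)
  let J3 : ℕ × ℕ := (g2, g3 - g2)
  let J5 : ℕ × ℕ := (g1, g3 - g1)
  -- load computations
  have hload : ∀ X : List (ℕ × ℕ), (∀ p ∈ X, R0 ≤ p.1) → (∀ x, cnt (X ++ T) x ≤ k + 1) →
      Good L (X ++ l) := by
    intro X hX hc
    rw [hT, ← List.append_assoc]
    refine good_append hkL ?_ hc hb0 hg0
    intro p hp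
    rw [List.mem_append] at hp
    rcases hp with hp | hp
    · exact hX p hp
    · exact (hT1 p hp).1
  have cA : ∀ x, cnt ([J3, J2, J4, J1] ++ T) x ≤ k + 1 := by
    intro x
    have h1 := hT2 x
    have h2 : x = g1 → cnt T x = 0 := fun h => by rw [h]; exact z1
    have h3 : x = g2 → cnt T x = 0 := fun h => by rw [h]; exact z2
    have h4 : x = g3 → cnt T x = 0 := fun h => by rw [h]; exact z3
    simp only [List.cons_append, List.nil_append, cnt_cons, J1, J2, J3, J4]
    split_ifs <;> omega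
  have cB : ∀ x, cnt ([J5, J4, J1] ++ T) x ≤ k + 1 := by
    intro x
    have h1 := hT2 x
    have h2 : x = g1 → cnt T x = 0 := fun h => by rw [h]; exact z1
    have h4 : x = g3 → cnt T x = 0 := fun h => by rw [h]; exact z3
    simp only [List.cons_append, List.nil_append, cnt_cons, J1, J5, J4]
    split_ifs <;> omega
  have cle : ∀ (J : ℕ × ℕ) (Y : List (ℕ × ℕ)) (x : ℕ), cnt Y x ≤ cnt (J :: Y) x := by
    intro J Y x; rw [cnt_cons]; omega
  have cA3 : ∀ x, cnt ([J2, J4, J1] ++ T) x ≤ k + 1 := fun x => (cle J3 _ x).trans (cA x)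
  have cA2 : ∀ x, cnt ([J4, J1] ++ T) x ≤ k + 1 := fun x => (cle J2 _ x).trans (cA3 x)
  have cA1 : ∀ x, cnt ([J1] ++ T) x ≤ k + 1 := fun x => (cle J4 _ x).trans (cA2 x)
  have G1 : Good L ([J1] ++ l) := hload _ (by simp [J1]; omega) cA1
  have G2 : Good L ([J4, J1] ++ l) := hload _ (by simp [J1, J4]; omega) cA2
  have G3 : Good L ([J2, J4, J1] ++ l) := hload _ (by simp [J1, J4, J2]; omega) cA3
  have G4 : Good L ([J3, J2, J4, J1] ++ l) := hload _ (by simp [J1, J4, J2, J3]; omega) cA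
  have G5 : Good L ([J5, J4, J1] ++ l) := hload _ (by simp [J1, J4, J5]; omega) cB
  have suf1 : l <:+ J1 :: l := List.suffix_cons _ _
  have suf2 : J1 :: l <:+ J4 :: J1 :: l := List.suffix_cons _ _
  have suf3 : J4 :: J1 :: l <:+ J2 :: J4 :: J1 :: l := List.suffix_cons _ _
  have suf4 : J2 :: J4 :: J1 :: l <:+ J3 :: J2 :: J4 :: J1 :: l := List.suffix_cons _ _
  have suf5 : J4 :: J1 :: l <:+ J5 :: J4 :: J1 :: l := List.suffix_cons _ _
  -- colours of the new intervals
  have n1 : a (J1 :: l) ∉ S0 := fun hs =>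
    (B1 _ hs).ne hp J1 G1 (by simp [J1]) (by simp [J1]; omega) rfl
  have n4 : a (J4 :: J1 :: l) ∉ S0 := fun hs =>
    ((B4 _ hs).mono suf1 le_rfl le_rfl).ne hp J4 G2 (by simp [J4]; omega) (by simp [J4]; omega) rfl
  have hT1' : ∀ p ∈ T, R0 ≤ p.1 ∧ p.1 + p.2 < r5 := hT1
  by_cases hc : a (J1 :: l) = a (J4 :: J1 :: l)
  · have n2 : a (J2 :: J4 :: J1 :: l) ∉ S0 := fun hs =>
      ((B2 _ hs).mono (suf1.trans suf2) le_rfl le_rfl).ne hp J2 G3 (by simp [J2]; omega)
        (by simp [J2]; omega) rfl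
    have n3 : a (J3 :: J2 :: J4 :: J1 :: l) ∉ S0 := fun hs =>
      ((B3 _ hs).mono (suf1.trans (suf2.trans suf3)) le_rfl le_rfl).ne hp J3 G4
        (by simp [J3]; omega) (by simp [J3]; omega) rfl
    have m21 : a (J1 :: l) ≠ a (J2 :: J4 :: J1 :: l) :=
      hp J2 (J4 :: J1 :: l) J1 l G3 suf2 (by simp [J1, J2]; omega) (by simp [J1, J2]; omega)
    have m32 : a (J2 :: J4 :: J1 :: l) ≠ a (J3 :: J2 :: J4 :: J1 :: l) :=
      hp J3 (J2 :: J4 :: J1 :: l) J2 _ G4 (List.suffix_refl _) (by simp [J2, J3]; omega)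
        (by simp [J2, J3]; omega)
    have m34 : a (J4 :: J1 :: l) ≠ a (J3 :: J2 :: J4 :: J1 :: l) :=
      hp J3 (J2 :: J4 :: J1 :: l) J4 _ G4 suf3 (by simp [J4, J3]; omega)
        (by simp [J4, J3]; omega)
    refine ⟨[J3, J2, J4, J1] ++ T, r5, insert (a (J3 :: J2 :: J4 :: J1 :: l))
      (insert (a (J2 :: J4 :: J1 :: l)) (insert (a (J1 :: l)) S0)), by omega, ?_, cA, ?_, ?_⟩
    · intro p hp'
      simp only [List.cons_append, List.nil_append, List.mem_cons] at hp'
      rcases hp' with rfl | rfl | rfl | rfl | hp'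
      · simp [J3]; omega
      · simp [J2]; omega
      · simp [J4]; omega
      · simp [J1]; omega
      · exact hT1' p hp'
    · rw [Finset.card_insert_of_notMem, Finset.card_insert_of_notMem, Finset.card_insert_of_notMem n1,
        s1b]
      · omega
      · rw [Finset.mem_insert, not_or]
        exact ⟨m21.symm, n2⟩
      · rw [Finset.mem_insert, Finset.mem_insert, not_or, not_or]
        exact ⟨m32.symm, by rw [hc]; exact m34.symm, n3⟩
    · intro s hs
      have e : ([J3, J2, J4, J1] ++ T) ++ l0 = J3 :: J2 :: J4 :: J1 :: l := by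
        rw [List.append_assoc, ← hT]; rfl
      rw [e]
      rw [Finset.mem_insert, Finset.mem_insert, Finset.mem_insert] at hs
      rcases hs with rfl | rfl | rfl | hs
      · exact ⟨J3, _, List.suffix_refl _, rfl, by simp [J3]; omega, by simp [J3]; omega⟩
      · exact ⟨J2, _, suf4, rfl, by simp [J2]; omega, by simp [J2]; omega⟩
      · exact ⟨J1, _, suf2.trans (suf3.trans suf4), rfl, by simp [J1]; omega, by simp [J1]; omega⟩
      · exact (B1 s hs).mono (suf1.trans (suf2.trans (suf3.trans suf4))) (by omega) (by omega)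
  · have n5 : a (J5 :: J4 :: J1 :: l) ∉ S0 := fun hs =>
      ((B2 _ hs).mono (suf1.trans suf2) le_rfl le_rfl).ne hp J5 G5 (by simp [J5]; omega)
        (by simp [J5]; omega) rfl
    have m51 : a (J1 :: l) ≠ a (J5 :: J4 :: J1 :: l) :=
      hp J5 (J4 :: J1 :: l) J1 l G5 suf2 (by simp [J1, J5]; omega) (by simp [J1, J5]; omega)
    have m54 : a (J4 :: J1 :: l) ≠ a (J5 :: J4 :: J1 :: l) :=
      hp J5 (J4 :: J1 :: l) J4 _ G5 (List.suffix_refl _) (by simp [J4, J5]; omega)
        (by simp [J4, J5]; omega)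
    refine ⟨[J5, J4, J1] ++ T, r5, insert (a (J5 :: J4 :: J1 :: l))
      (insert (a (J4 :: J1 :: l)) (insert (a (J1 :: l)) S0)), by omega, ?_, cB, ?_, ?_⟩
    · intro p hp'
      simp only [List.cons_append, List.nil_append, List.mem_cons] at hp'
      rcases hp' with rfl | rfl | rfl | hp'
      · simp [J5]; omega
      · simp [J4]; omega
      · simp [J1]; omega
      · exact hT1' p hp'
    · rw [Finset.card_insert_of_notMem, Finset.card_insert_of_notMem, Finset.card_insert_of_notMem n1,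
        s1b]
      · omega
      · rw [Finset.mem_insert, not_or]
        exact ⟨fun h => hc h.symm, n4⟩
      · rw [Finset.mem_insert, Finset.mem_insert, not_or, not_or]
        exact ⟨m54.symm, m51.symm, n5⟩
    · intro s hs
      have e : ([J5, J4, J1] ++ T) ++ l0 = J5 :: J4 :: J1 :: l := by
        rw [List.append_assoc, ← hT]; rfl
      rw [e]
      rw [Finset.mem_insert, Finset.mem_insert, Finset.mem_insert] at hs
      rcases hs with rfl | rfl | rfl | hs
      · exact ⟨J5, _, List.suffix_refl _, rfl, by simp [J5]; omega, by simp [J5]; omega⟩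
      · exact ⟨J4, _, suf5, rfl, by simp [J4]; omega, by simp [J4]; omega⟩
      · exact ⟨J1, _, suf2.trans suf5, rfl, by simp [J1]; omega, by simp [J1]; omega⟩
      · exact (B1 s hs).mono (suf1.trans (suf2.trans suf5)) (by omega) (by omega)

lemma forces_all (hp : Proper L a) (k : ℕ) (h1 : 1 ≤ k) (hk : k ≤ L) : Forces a L k := by
  induction k, h1 using Nat.le_induction with
  | base => exact forces_one
  | succ k hk1 ih => exact forces_succ hk1 hk hp (ih (by omega))

/-- the deterministic lower bound of Kierstead and Trotter -/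
lemma det (hL : 1 ≤ L) (hK : K < 3 * L - 2) : ¬ Proper L a := by
  intro hp
  obtain ⟨_, _, S, _, _, _, hS, _⟩ := forces_all hp L hL le_rfl [] 0 (by simp)
    (fun x => by rw [cnt_nil]; omega)
  have := Finset.card_le_univ S
  rw [Fintype.card_fin] at this
  omega

end force

/-- a constraint: two prefixes (reversed) of one request sequence of load at most `L` whose last
requests overlap -/
def IsConstr (L : ℕ) (c : List (ℕ × ℕ) × List (ℕ × ℕ)) : Prop :=
  ∃ J t I t2, c = (I :: t2, J :: t) ∧ Good L (J :: t) ∧ (I :: t2) <:+ t ∧ I.1 ≤ J.1 + J.2 ∧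
    J.1 ≤ I.1 + I.2

lemma compact {K L : ℕ} (hL : 1 ≤ L) (hK : K < 3 * L - 2) :
    ∃ F : Finset (List (ℕ × ℕ) × List (ℕ × ℕ)), (∀ c ∈ F, IsConstr L c) ∧
      ∀ a : List (ℕ × ℕ) → Fin K, ∃ c ∈ F, a c.1 = a c.2 := by
  classical
  let ι := {c : List (ℕ × ℕ) × List (ℕ × ℕ) // IsConstr L c}
  let t : ι → Set (List (ℕ × ℕ) → Fin K) := fun c => {a | a c.1.1 ≠ a c.1.2}
  have hcl : ∀ c, IsClosed (t c) := by
    intro c
    have : t c = (fun a : List (ℕ × ℕ) → Fin K => (a c.1.1, a c.1.2)) ⁻¹' {q | q.1 ≠ q.2} := rfl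
    rw [this]
    refine IsClosed.preimage ?_ (isClosed_discrete _)
    fun_prop
  have hempty : (Set.univ ∩ ⋂ c, t c) = ∅ := by
    rw [Set.univ_inter, Set.eq_empty_iff_forall_notMem]
    intro a ha
    rw [Set.mem_iInter] at ha
    apply det (a := a) hL hK
    intro J s I t2 h1 h2 h3 h4
    exact ha ⟨(I :: t2, J :: s), J, s, I, t2, rfl, h1, h2, h3, h4⟩
  obtain ⟨u, hu⟩ := isCompact_univ.elim_finite_subfamily_closed t hcl hempty
  refine ⟨u.image Subtype.val, ?_, ?_⟩
  · intro c hc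
    rw [Finset.mem_image] at hc
    obtain ⟨c', _, rfl⟩ := hc
    exact c'.2
  · intro a
    by_contra hcon
    push Not at hcon
    rw [Set.univ_inter, Set.eq_empty_iff_forall_notMem] at hu
    apply hu a
    simp only [Set.mem_iInter]
    intro c hc
    exact hcon c.1 (Finset.mem_image_of_mem _ hc)

end Pool.Agent.MPdc6d97
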