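import Pool.Agent.MPdc6d97.Det

set_option autoImplicit false

namespace Pool.Agent.MPdc6d97

open MeasureTheory

section
variable {Ω : Type} (A : List (ℕ × ℕ) → Ω → ℕ)

/-- the set of colours used on `σ` -/
def Col (σ : List (ℕ × ℕ)) (ω : Ω) : Finset ℕ :=
  ((List.range σ.length).map (fun i => A (σ.take (i + 1)) ω)).toFinset

lemma mem_Col (σ : List (ℕ × ℕ)) (ω : Ω) (c : ℕ) :
    c ∈ Col A σ ω ↔ ∃ i < σ.length, A (σ.take (i + 1)) ω = c := by
  unfold Col
  simp

lemma Col_mono (σ ρ : List (ℕ × ℕ)) (ω : Ω) : Col A σ ω ⊆ Col A (σ ++ ρ) ω := by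
  intro c hc
  rw [mem_Col] at hc ⊢
  obtain ⟨i, hi, h⟩ := hc
  refine ⟨i, by rw [List.length_append]; omega, ?_⟩
  rw [List.take_append_of_le_length (by omega)]
  exact h

lemma Col_last (σ : List (ℕ × ℕ)) (ω : Ω) (h : σ ≠ []) : A σ ω ∈ Col A σ ω := by
  rw [mem_Col]
  have hl : 0 < σ.length := List.length_pos_iff.2 h
  refine ⟨σ.length - 1, by omega, ?_⟩
  rw [Nat.sub_add_cancel hl, List.take_length]

lemma card_le (σ : List (ℕ × ℕ)) (ω : Ω) : (Col A σ ω).card ≤ σ.length := by
  unfold Col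
  refine (List.toFinset_card_le _).trans ?_
  simp

variable [MeasurableSpace Ω]

lemma meas_card (hmeas : ∀ s : List (ℕ × ℕ), Measurable (A s)) (σ : List (ℕ × ℕ)) :
    Measurable (fun ω => (((Col A σ ω).card : ℕ) : ℝ)) := by
  have h1 : Measurable (fun ω => (fun i : Fin σ.length => A (σ.take (i + 1)) ω)) :=
    measurable_pi_lambda _ (fun i => hmeas _)
  have h2 : Measurable (fun f : Fin σ.length → ℕ => (((Finset.univ.image f).card : ℕ) : ℝ)) :=
    Measurable.of_discrete
  have h3 := h2.comp h1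
  have : (fun ω => (((Col A σ ω).card : ℕ) : ℝ)) =
      (fun f : Fin σ.length → ℕ => (((Finset.univ.image f).card : ℕ) : ℝ)) ∘
        (fun ω => (fun i : Fin σ.length => A (σ.take (i + 1)) ω)) := by
    funext ω
    simp only [Function.comp]
    congr 2
    ext c
    rw [mem_Col, Finset.mem_image]
    constructor
    · rintro ⟨i, hi, h⟩
      exact ⟨⟨i, hi⟩, Finset.mem_univ _, h⟩
    · rintro ⟨i, _, h⟩
      exact ⟨i.1, i.2, h⟩
  rw [this]
  exact h3

lemma integrable_card (μ : Measure Ω) [IsProbabilityMeasure μ]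
    (hmeas : ∀ s : List (ℕ × ℕ), Measurable (A s)) (σ : List (ℕ × ℕ)) :
    Integrable (fun ω => (((Col A σ ω).card : ℕ) : ℝ)) μ := by
  refine Integrable.of_bound (meas_card A hmeas σ).aestronglyMeasurable (σ.length : ℝ) ?_
  refine Filter.Eventually.of_forall (fun ω => ?_)
  rw [Real.norm_eq_abs, abs_of_nonneg (Nat.cast_nonneg _)]
  exact_mod_cast card_le A σ ω

end

/-- shift of an interval by `R` -/
def sh (R : ℕ) (p : ℕ × ℕ) : ℕ × ℕ := (p.1 + R, p.2)

/-- `σ` followed by the requests of the reversed sequence `l`, shifted by `R` -/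
def ext (σ : List (ℕ × ℕ)) (R : ℕ) (l : List (ℕ × ℕ)) : List (ℕ × ℕ) := σ ++ (l.map (sh R)).reverse

lemma cnt_reverse (l : List (ℕ × ℕ)) (x : ℕ) : cnt l.reverse x = cnt l x := by
  unfold cnt; rw [List.countP_reverse]

lemma cnt_shift (R : ℕ) (l : List (ℕ × ℕ)) (x : ℕ) (hx : R ≤ x) :
    cnt (l.map (sh R)) x = cnt l (x - R) := by
  induction l with
  | nil => rfl
  | cons J l ih =>
    rw [List.map_cons, cnt_cons, cnt_cons, ih]
    have : ((sh R J).1 ≤ x ∧ x ≤ (sh R J).1 + (sh R J).2) ↔ (J.1 ≤ x - R ∧ x - R ≤ J.1 + J.2) := by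
      simp only [sh]; omega
    rw [if_congr this rfl rfl]

lemma good_ext {L : ℕ} {σ : List (ℕ × ℕ)} {R : ℕ} {l : List (ℕ × ℕ)} (hσ : Good L σ)
    (hR : ∀ p ∈ σ, p.1 + p.2 < R) (hl : Good L l) : Good L (ext σ R l) := by
  intro x
  unfold ext
  rw [cnt_append, cnt_reverse]
  rcases Nat.lt_or_ge x R with h | h
  · have : cnt (l.map (sh R)) x = 0 := by
      apply cnt_zero_of_lt
      intro p hp
      rw [List.mem_map] at hp
      obtain ⟨q, _, rfl⟩ := hp
      simp only [sh]; omega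
    have := hσ x
    omega
  · have : cnt σ x = 0 := cnt_zero_of_gt (fun p hp => by have := hR p hp; omega)
    rw [cnt_shift _ _ _ h]
    have := hl (x - R)
    omega

lemma good_suffix {L : ℕ} {l l' : List (ℕ × ℕ)} (h : Good L l') (hs : l <:+ l') : Good L l := by
  obtain ⟨m, rfl⟩ := hs
  intro x
  have := h x
  rw [cnt_append] at this
  omega

lemma ext_cons (σ : List (ℕ × ℕ)) (R : ℕ) (J : ℕ × ℕ) (t : List (ℕ × ℕ)) :
    ext σ R (J :: t) = ext σ R t ++ [sh R J] := by
  simp [ext]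

lemma ext_prefix {σ : List (ℕ × ℕ)} {R : ℕ} {l l' : List (ℕ × ℕ)} (h : l <:+ l') :
    ext σ R l <+: ext σ R l' := by
  obtain ⟨m, rfl⟩ := h
  refine ⟨(m.map (sh R)).reverse, ?_⟩
  simp [ext]

lemma main {Ω : Type} [MeasurableSpace Ω] (μ : Measure Ω) [IsProbabilityMeasure μ]
    (A : List (ℕ × ℕ) → Ω → ℕ) (hmeas : ∀ s : List (ℕ × ℕ), Measurable (A s))
    (hprop : ∀ (ω : Ω) (σ : List (ℕ × ℕ)) (i j : ℕ) (hi : i < σ.length) (hj : j < σ.length), i ≠ j →
         σ[i].1 ≤ σ[j].1 + σ[j].2 → σ[j].1 ≤ σ[i].1 + σ[i].2 →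
         A (σ.take (i + 1)) ω ≠ A (σ.take (j + 1)) ω)
    (L : ℕ) (hL2 : 2 ≤ L) (B : ℝ) (hB : B < ((3 * L - 2 : ℕ) : ℝ))
    (hcomp : ∀ σ, Good L σ → ∫ ω, (((Col A σ ω).card : ℕ) : ℝ) ∂μ ≤ B) : False := by
  classical
  have hL : 1 ≤ L := by omega
  set M : ℕ := 3 * L - 2 with hM
  have hM1 : 1 ≤ M := by omega
  have hMpos : (0 : ℝ) < M := by exact_mod_cast hM1
  obtain ⟨F, hF1, hF2⟩ := compact (K := M - 1) hL (by omega)
  set F' : Finset (List (ℕ × ℕ)) := F.image Prod.fst ∪ F.image Prod.snd with hF'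
  have hF'good : ∀ l ∈ F', Good L l ∧ l ≠ [] := by
    intro l hl
    rw [hF', Finset.mem_union, Finset.mem_image, Finset.mem_image] at hl
    rcases hl with ⟨c, hc, rfl⟩ | ⟨c, hc, rfl⟩
    · obtain ⟨J, t, I, t2, rfl, h1, h2, _, _⟩ := hF1 c hc
      exact ⟨good_suffix h1 (h2.trans (List.suffix_cons _ _)), by simp⟩
    · obtain ⟨J, t, I, t2, rfl, h1, h2, _, _⟩ := hF1 c hc
      exact ⟨h1, by simp⟩
  set v : List (ℕ × ℕ) → ℝ := fun σ => ∫ ω, (((Col A σ ω).card : ℕ) : ℝ) ∂μ with hv
  set δ : ℝ := 1 - B / M with hδ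
  have hδpos : 0 < δ := by
    rw [hδ, sub_pos, div_lt_one hMpos]
    exact hB
  set ε : ℝ := δ / (F'.card + 1) with hε
  have hεpos : 0 < ε := by positivity
  -- a near maximiser
  obtain ⟨σ, hσ, hmax⟩ : ∃ σ, Good L σ ∧ ∀ σ', Good L σ' → v σ' ≤ v σ + ε := by
    have hne : (v '' {σ | Good L σ}).Nonempty :=
      ⟨v [], [], fun x => by rw [cnt_nil]; omega, rfl⟩
    have hbdd : BddAbove (v '' {σ | Good L σ}) := ⟨B, by rintro _ ⟨σ, h, rfl⟩; exact hcomp σ h⟩
    obtain ⟨_, ⟨σ, hσ, rfl⟩, h⟩ := exists_lt_of_lt_csSup hne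
      (show sSup (v '' {σ | Good L σ}) - ε < sSup (v '' {σ | Good L σ}) by linarith)
    refine ⟨σ, hσ, fun σ' hσ' => ?_⟩
    have := le_csSup hbdd ⟨σ', hσ', rfl⟩
    linarith
  obtain ⟨R, hR⟩ : ∃ R, ∀ p ∈ σ, p.1 + p.2 < R := by
    refine ⟨(σ.map (fun p => p.1 + p.2)).sum + 1, fun p hp => ?_⟩
    have : p.1 + p.2 ≤ (σ.map (fun p => p.1 + p.2)).sum :=
      List.le_sum_of_mem (List.mem_map.2 ⟨p, hp, rfl⟩)
    omega
  -- pointwise inequality
  have hpt : ∀ ω, 1 - (((Col A σ ω).card : ℕ) : ℝ) / M ≤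
      ∑ l ∈ F', ((((Col A (ext σ R l) ω).card : ℕ) : ℝ) - (((Col A σ ω).card : ℕ) : ℝ)) := by
    intro ω
    have hmono : ∀ l, (Col A σ ω).card ≤ (Col A (ext σ R l) ω).card := fun l =>
      Finset.card_le_card (Col_mono A σ _ ω)
    have hnonneg : ∀ l ∈ F', (0 : ℝ) ≤
        ((((Col A (ext σ R l) ω).card : ℕ) : ℝ) - (((Col A σ ω).card : ℕ) : ℝ)) := by
      intro l _
      have : (((Col A σ ω).card : ℕ) : ℝ) ≤ (((Col A (ext σ R l) ω).card : ℕ) : ℝ) := by
        exact_mod_cast hmono l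
      linarith
    by_cases hcard : M ≤ (Col A σ ω).card
    · have h1 : (1 : ℝ) ≤ (((Col A σ ω).card : ℕ) : ℝ) / M := by
        rw [le_div_iff₀ hMpos, one_mul]; exact_mod_cast hcard
      have := Finset.sum_nonneg hnonneg
      linarith
    · push Not at hcard
      -- some `l` uses a new colour
      obtain ⟨l, hl, hnew⟩ : ∃ l ∈ F', A (ext σ R l) ω ∉ Col A σ ω := by
        by_contra hcon
        push Not at hcon
        -- embed the colours into `Fin (M-1)`
        have hcard' : Fintype.card (Col A σ ω) ≤ Fintype.card (Fin (M - 1)) := by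
          rw [Fintype.card_coe, Fintype.card_fin]; omega
        obtain ⟨f⟩ := Function.Embedding.nonempty_of_card_le hcard'
        have : NeZero (M - 1) := ⟨by omega⟩
        let a : List (ℕ × ℕ) → Fin (M - 1) := fun l =>
          if h : A (ext σ R l) ω ∈ Col A σ ω then f ⟨_, h⟩ else 0
        obtain ⟨c, hc, hac⟩ := hF2 a
        have m1 := hcon c.1 (Finset.mem_union_left _ (Finset.mem_image_of_mem _ hc))
        have m2 := hcon c.2 (Finset.mem_union_right _ (Finset.mem_image_of_mem _ hc))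
        simp only [a, dif_pos m1, dif_pos m2] at hac
        have heq : A (ext σ R c.1) ω = A (ext σ R c.2) ω := by
          have := f.injective hac
          simpa using this
        obtain ⟨J, t, I, t2, rfl, h1, h2, h3, h4⟩ := hF1 c hc
        simp only at heq
        -- positions
        have hp1 : ext σ R (I :: t2) <+: ext σ R (J :: t) :=
          ext_prefix (h2.trans (List.suffix_cons _ _))
        have hlenI : (ext σ R (I :: t2)).length = (ext σ R t2).length + 1 := by
          rw [ext_cons]; simp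
        have hlenJ : (ext σ R (J :: t)).length = (ext σ R t).length + 1 := by
          rw [ext_cons]; simp
        have hle : (ext σ R (I :: t2)).length ≤ (ext σ R t).length := (ext_prefix h2).length_le
        have hi : (ext σ R t2).length < (ext σ R (J :: t)).length := by omega
        have hj : (ext σ R t).length < (ext σ R (J :: t)).length := by omega
        have eJ : (ext σ R (J :: t))[(ext σ R t).length] = sh R J := by
          simp [ext_cons]
        have eI : (ext σ R (J :: t))[(ext σ R t2).length] = sh R I := by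
          have h5 := hp1.getElem (i := (ext σ R t2).length) (by omega)
          rw [← h5]
          simp [ext_cons]
        have := hprop ω (ext σ R (J :: t)) _ _ hi hj (by omega) (by rw [eJ, eI]; simp only [sh]; omega)
          (by rw [eJ, eI]; simp only [sh]; omega)
        apply this
        have t1 : (ext σ R (J :: t)).take ((ext σ R t2).length + 1) = ext σ R (I :: t2) := by
          rw [← hlenI]
          exact (List.prefix_iff_eq_take.1 hp1).symm
        have t2' : (ext σ R (J :: t)).take ((ext σ R t).length + 1) = ext σ R (J :: t) := by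
          rw [← hlenJ, List.take_length]
        rw [t1, t2']
        exact heq
      have hgain : (1 : ℝ) ≤
          ((((Col A (ext σ R l) ω).card : ℕ) : ℝ) - (((Col A σ ω).card : ℕ) : ℝ)) := by
        have hne : ext σ R l ≠ [] := by
          have := (hF'good l hl).2
          unfold ext
          intro h
          rw [List.append_eq_nil_iff] at h
          apply this
          simpa using h.2
        have hsub : insert (A (ext σ R l) ω) (Col A σ ω) ⊆ Col A (ext σ R l) ω := by
          rw [Finset.insert_subset_iff]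
          exact ⟨Col_last A _ ω hne, Col_mono A σ _ ω⟩
        have := Finset.card_le_card hsub
        rw [Finset.card_insert_of_notMem hnew] at this
        have h' : (((Col A σ ω).card : ℕ) : ℝ) + 1 ≤ (((Col A (ext σ R l) ω).card : ℕ) : ℝ) := by
          exact_mod_cast this
        linarith
      have h1 := Finset.single_le_sum hnonneg hl
      have h2 : (0 : ℝ) ≤ (((Col A σ ω).card : ℕ) : ℝ) / M := by positivity
      linarith
  -- integrate
  have hint : ∀ s, Integrable (fun ω => (((Col A s ω).card : ℕ) : ℝ)) μ := integrable_card A μ hmeas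
  have hI : ∫ ω, (1 - (((Col A σ ω).card : ℕ) : ℝ) / M) ∂μ ≤
      ∫ ω, ∑ l ∈ F', ((((Col A (ext σ R l) ω).card : ℕ) : ℝ) - (((Col A σ ω).card : ℕ) : ℝ)) ∂μ := by
    apply integral_mono
    · exact (integrable_const _).sub ((hint σ).div_const _)
    · exact integrable_finsetSum _ (fun l _ => (hint _).sub (hint σ))
    · exact hpt
  rw [integral_sub (integrable_const _) ((hint σ).div_const _), integral_const, integral_div] at hI
  have hsum_eq : ∫ ω, ∑ l ∈ F', ((((Col A (ext σ R l) ω).card : ℕ) : ℝ) - (((Col A σ ω).card : ℕ) : ℝ)) ∂μ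
      = ∑ l ∈ F', ∫ ω, ((((Col A (ext σ R l) ω).card : ℕ) : ℝ) - (((Col A σ ω).card : ℕ) : ℝ)) ∂μ :=
    integral_finsetSum _ (fun l _ => (hint _).sub (hint σ))
  rw [hsum_eq] at hI
  simp only [probReal_univ, one_smul] at hI
  have hsum : ∑ l ∈ F', ∫ ω, ((((Col A (ext σ R l) ω).card : ℕ) : ℝ) - (((Col A σ ω).card : ℕ) : ℝ)) ∂μ
      ≤ ∑ l ∈ F', ε := by
    apply Finset.sum_le_sum
    intro l hl
    rw [integral_sub (hint _) (hint σ)]
    have := hmax _ (good_ext hσ hR (hF'good l hl).1)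
    simp only [hv] at this
    linarith
  rw [Finset.sum_const, nsmul_eq_mul] at hsum
  have h1 : B / M ≥ (∫ ω, (((Col A σ ω).card : ℕ) : ℝ) ∂μ) / M :=
    div_le_div_of_nonneg_right (hcomp σ hσ) hMpos.le
  have h2 : (F'.card : ℝ) * ε < δ := by
    rw [hε, ← mul_div_assoc, div_lt_iff₀ (by positivity)]
    nlinarith
  linarith

end Pool.Agent.MPdc6d97
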